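import Mathlib

/-!
# Common zero sets of two multi-affine polynomials can have many components

For every `N` there are two multi-affine polynomials of degree at most `4` in `2 N + 1` real
variables whose common zero set has exactly `2 ^ N` connected components.
-/

open MvPolynomial Finset

namespace Pool.Agent.Results.MP_12b847_ag.TwoMultiAffine

/-- degree at most one in each variable separately -/
def IsMultiAffine {n : ℕ} (P : MvPolynomial (Fin n) ℝ) : Prop := ∀ i, P.degreeOf i ≤ 1

/-- the common zero set of `P` and `Q` in `ℝⁿ` -/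
def zeroSet {n : ℕ} (P Q : MvPolynomial (Fin n) ℝ) : Set (Fin n → ℝ) :=
  {x | eval x P = 0 ∧ eval x Q = 0}

/-- the number of connected components of a subset of `ℝⁿ` -/
noncomputable def b0 {n : ℕ} (V : Set (Fin n → ℝ)) : ℕ := Nat.card (ConnectedComponents V)

section construction

variable {N : ℕ}

/-- index of the variable `x_i` -/
def ix (i : Fin N) : Fin (2 * N + 1) := ⟨2 * i + 1, by omega⟩

/-- index of the variable `y_i` -/
def iy (i : Fin N) : Fin (2 * N + 1) := ⟨2 * i + 2, by omega⟩

/-- `x_i y_i - 1` -/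
noncomputable def e (i : Fin N) : MvPolynomial (Fin (2 * N + 1)) ℝ := X (ix i) * X (iy i) - 1

/-- the sum of the `x_i y_i - 1` -/
noncomputable def S (N : ℕ) : MvPolynomial (Fin (2 * N + 1)) ℝ := ∑ i : Fin N, e i

/-- the first polynomial `z - ∑ (x_i y_i - 1)` -/
noncomputable def P (N : ℕ) : MvPolynomial (Fin (2 * N + 1)) ℝ := X 0 - S N

/-- the second polynomial -/
noncomputable def Q (N : ℕ) : MvPolynomial (Fin (2 * N + 1)) ℝ :=
  X 0 * S N - ∑ i : Fin N, ∑ j ∈ univ.erase i, e i * e j

lemma degreeOf_one_poly (k : Fin (2 * N + 1)) :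
    degreeOf k (1 : MvPolynomial (Fin (2 * N + 1)) ℝ) = 0 := by
  rw [← C_1]; exact degreeOf_C _ _

lemma degreeOf_e (i : Fin N) (k : Fin (2 * N + 1)) :
    degreeOf k (e i) ≤ if k = ix i ∨ k = iy i then 1 else 0 := by
  have h1 : degreeOf k (e i) ≤ degreeOf k (X (ix i) * X (iy i) : MvPolynomial (Fin (2 * N + 1)) ℝ) := by
    refine (degreeOf_sub_le _ _ _).trans ?_
    rw [degreeOf_one_poly]
    simp
  have h2 := degreeOf_mul_le k (X (ix i) : MvPolynomial (Fin (2 * N + 1)) ℝ) (X (iy i))
  rw [degreeOf_X, degreeOf_X] at h2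
  refine h1.trans (h2.trans ?_)
  have hne : ix i ≠ iy i := by
    intro h
    have := congrArg Fin.val h
    simp [ix, iy] at this
  by_cases hx : k = ix i
  · subst hx
    simp [hne]
  · by_cases hy : k = iy i
    · subst hy
      simp [hne.symm]
    · simp [hx, hy]

lemma degreeOf_S (k : Fin (2 * N + 1)) : degreeOf k (S N) ≤ if k = 0 then 0 else 1 := by
  refine (degreeOf_sum_le _ _ _).trans ?_
  refine Finset.sup_le fun i _ => (degreeOf_e i k).trans ?_
  by_cases hk : k = 0
  · subst hk
    have h1 : (0 : Fin (2 * N + 1)) ≠ ix i := by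
      intro h
      have := congrArg Fin.val h
      simp [ix] at this
    have h2 : (0 : Fin (2 * N + 1)) ≠ iy i := by
      intro h
      have := congrArg Fin.val h
      simp [iy] at this
    simp [h1, h2]
  · simp only [hk, if_false]
    split_ifs <;> simp

lemma multiAffine_P : IsMultiAffine (P N) := by
  intro k
  refine (degreeOf_sub_le _ _ _).trans (max_le ?_ ?_)
  · rw [degreeOf_X]; split_ifs <;> simp
  · refine (degreeOf_S k).trans ?_
    split_ifs <;> simp

lemma multiAffine_Q : IsMultiAffine (Q N) := by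
  intro k
  refine (degreeOf_sub_le _ _ _).trans (max_le ?_ ?_)
  · refine (degreeOf_mul_le _ _ _).trans ?_
    have h := degreeOf_S k
    rw [degreeOf_X]
    by_cases hk : k = 0
    · simp only [hk, if_true] at h ⊢
      omega
    · simp only [hk, if_false] at h ⊢
      omega
  · refine (degreeOf_sum_le _ _ _).trans (Finset.sup_le fun i _ => ?_)
    refine (degreeOf_sum_le _ _ _).trans (Finset.sup_le fun j hj => ?_)
    have hij : j ≠ i := Finset.ne_of_mem_erase hj
    refine (degreeOf_mul_le _ _ _).trans ?_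
    have h1 := degreeOf_e i k
    have h2 := degreeOf_e j k
    by_cases hi : k = ix i ∨ k = iy i
    · have hj' : ¬ (k = ix j ∨ k = iy j) := by
        intro h
        apply hij
        apply Fin.ext
        rcases hi with hi | hi <;> rcases h with h | h <;>
        · have := congrArg Fin.val (hi.symm.trans h)
          simp [ix, iy] at this
          omega
      rw [if_pos hi] at h1
      rw [if_neg hj'] at h2
      omega
    · rw [if_neg hi] at h1
      split_ifs at h2 <;> omega

lemma totalDegree_e (i : Fin N) : (e i).totalDegree ≤ 2 := by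
  refine (totalDegree_sub _ _).trans (max_le ?_ ?_)
  · refine (totalDegree_mul _ _).trans ?_
    rw [totalDegree_X, totalDegree_X]
  · rw [← C_1, totalDegree_C]
    simp

lemma totalDegree_S : (S N).totalDegree ≤ 2 := by
  refine (totalDegree_finsetSum _ _).trans (Finset.sup_le fun i _ => totalDegree_e i)

lemma totalDegree_P : (P N).totalDegree ≤ 4 := by
  refine (totalDegree_sub _ _).trans (max_le ?_ ?_)
  · rw [totalDegree_X]; simp
  · exact totalDegree_S.trans (by norm_num)

lemma totalDegree_Q : (Q N).totalDegree ≤ 4 := by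
  refine (totalDegree_sub _ _).trans (max_le ?_ ?_)
  · refine (totalDegree_mul _ _).trans ?_
    have h := totalDegree_S (N := N)
    rw [totalDegree_X]
    omega
  · refine (totalDegree_finsetSum _ _).trans (Finset.sup_le fun i _ => ?_)
    refine (totalDegree_finsetSum _ _).trans (Finset.sup_le fun j _ => ?_)
    refine (totalDegree_mul _ _).trans ?_
    have h1 := totalDegree_e i
    have h2 := totalDegree_e j
    omega

lemma mem_zeroSet (v : Fin (2 * N + 1) → ℝ) :
    v ∈ zeroSet (P N) (Q N) ↔ v 0 = 0 ∧ ∀ i : Fin N, v (ix i) * v (iy i) = 1 := by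
  obtain ⟨w, hw⟩ : ∃ w : Fin N → ℝ, ∀ i, w i = v (ix i) * v (iy i) - 1 := ⟨_, fun _ => rfl⟩
  have hS : eval v (S N) = ∑ i, w i := by
    simp [S, e, hw]
  have hP : eval v (P N) = v 0 - ∑ i, w i := by
    rw [P, map_sub, hS, eval_X]
  have hQ : eval v (Q N) = v 0 * ∑ i, w i - ∑ i, ∑ j ∈ univ.erase i, w i * w j := by
    rw [Q, map_sub, map_mul, hS, eval_X]
    congr 1
    rw [map_sum]
    refine Finset.sum_congr rfl fun i _ => ?_
    rw [map_sum]
    refine Finset.sum_congr rfl fun j _ => ?_
    simp [e, hw]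
  have hsq : (∑ i, w i) * ∑ i, w i - ∑ i, ∑ j ∈ univ.erase i, w i * w j = ∑ i, w i ^ 2 := by
    rw [Finset.sum_mul_sum, ← Finset.sum_sub_distrib]
    refine Finset.sum_congr rfl fun i _ => ?_
    rw [← Finset.add_sum_erase _ _ (Finset.mem_univ i)]
    ring
  constructor
  · rintro ⟨h1, h2⟩
    rw [hP] at h1
    rw [hQ] at h2
    have h3 : v 0 = ∑ i, w i := by linarith
    rw [h3, hsq] at h2
    have h4 : ∀ i, w i = 0 := by
      intro i
      have := (Finset.sum_eq_zero_iff_of_nonneg (fun i _ => sq_nonneg (w i))).1 h2 i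
        (Finset.mem_univ i)
      exact pow_eq_zero_iff (two_ne_zero) |>.1 this
    refine ⟨by rw [h3]; exact Finset.sum_eq_zero fun i _ => h4 i, fun i => ?_⟩
    have := h4 i
    rw [hw] at this
    linarith
  · rintro ⟨h1, h2⟩
    have h4 : ∀ i, w i = 0 := fun i => by rw [hw, h2]; norm_num
    constructor
    · rw [hP, h1]
      simp [h4]
    · rw [hQ, h1]
      simp [h4]

/-- the sign vector of a point of the zero set -/
noncomputable def sgn (v : zeroSet (P N) (Q N)) : Fin N → Bool :=
  fun i => decide (0 < v.1 (ix i))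

lemma x_ne (v : zeroSet (P N) (Q N)) (i : Fin N) : v.1 (ix i) ≠ 0 := by
  intro h
  have := ((mem_zeroSet v.1).1 v.2).2 i
  rw [h, zero_mul] at this
  exact zero_ne_one this

lemma continuous_sgn : Continuous (sgn (N := N)) := by
  refine continuous_pi fun i => ?_
  have hc : Continuous fun v : zeroSet (P N) (Q N) => v.1 (ix i) :=
    (continuous_apply (ix i)).comp continuous_subtype_val
  rw [continuous_discrete_rng]
  intro b
  cases b with
  | true =>
    have : (fun v : zeroSet (P N) (Q N) => sgn v i) ⁻¹' {true} = {v | 0 < v.1 (ix i)} := by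
      ext v; simp [sgn]
    rw [this]
    exact isOpen_lt continuous_const hc
  | false =>
    have : (fun v : zeroSet (P N) (Q N) => sgn v i) ⁻¹' {false} = {v | v.1 (ix i) < 0} := by
      ext v
      simp only [sgn, Set.mem_preimage, Set.mem_singleton_iff, decide_eq_false_iff_not, not_lt,
        Set.mem_ofPred_eq]
      exact ⟨fun h => lt_of_le_of_ne h (x_ne v i), le_of_lt⟩
    rw [this]
    exact isOpen_lt hc continuous_const

/-- the sign attached to a Boolean -/
def sg (b : Bool) : ℝ := if b then 1 else -1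

lemma sg_mul_self (b : Bool) : sg b * sg b = 1 := by cases b <;> simp [sg]

/-- the point with sign vector `s` and absolute values `u` -/
noncomputable def pt (s : Fin N → Bool) (u : Fin N → ℝ) : Fin (2 * N + 1) → ℝ := fun k =>
  if h : (k : ℕ) = 0 then 0
  else if (k : ℕ) % 2 = 1 then
    sg (s ⟨((k : ℕ) - 1) / 2, by omega⟩) * u ⟨((k : ℕ) - 1) / 2, by omega⟩
  else sg (s ⟨((k : ℕ) - 1) / 2, by omega⟩) * (u ⟨((k : ℕ) - 1) / 2, by omega⟩)⁻¹

lemma pt_zero (s : Fin N → Bool) (u : Fin N → ℝ) : pt s u 0 = 0 := by simp [pt]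

lemma pt_ix (s : Fin N → Bool) (u : Fin N → ℝ) (i : Fin N) : pt s u (ix i) = sg (s i) * u i := by
  have h1 : ((ix i : Fin (2 * N + 1)) : ℕ) = 2 * i + 1 := rfl
  unfold pt
  rw [dif_neg (by rw [h1]; omega), if_pos (by rw [h1]; omega)]
  have h2 : ∀ h : (((ix i : Fin (2 * N + 1)) : ℕ) - 1) / 2 < N,
      (⟨(((ix i : Fin (2 * N + 1)) : ℕ) - 1) / 2, h⟩ : Fin N) = i := by
    intro h
    apply Fin.ext
    show (((ix i : Fin (2 * N + 1)) : ℕ) - 1) / 2 = i
    rw [h1]; omega
  rw [h2]

lemma pt_iy (s : Fin N → Bool) (u : Fin N → ℝ) (i : Fin N) :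
    pt s u (iy i) = sg (s i) * (u i)⁻¹ := by
  have h1 : ((iy i : Fin (2 * N + 1)) : ℕ) = 2 * i + 2 := rfl
  unfold pt
  rw [dif_neg (by rw [h1]; omega), if_neg (by rw [h1]; omega)]
  have h2 : ∀ h : (((iy i : Fin (2 * N + 1)) : ℕ) - 1) / 2 < N,
      (⟨(((iy i : Fin (2 * N + 1)) : ℕ) - 1) / 2, h⟩ : Fin N) = i := by
    intro h
    apply Fin.ext
    show (((iy i : Fin (2 * N + 1)) : ℕ) - 1) / 2 = i
    rw [h1]; omega
  rw [h2]

lemma pt_mem (s : Fin N → Bool) (u : Fin N → ℝ) (hu : ∀ i, 0 < u i) :
    pt s u ∈ zeroSet (P N) (Q N) := by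
  rw [mem_zeroSet]
  refine ⟨pt_zero s u, fun i => ?_⟩
  rw [pt_ix, pt_iy]
  have h := (hu i).ne'
  have h2 := sg_mul_self (s i)
  calc sg (s i) * u i * (sg (s i) * (u i)⁻¹) = (sg (s i) * sg (s i)) * (u i * (u i)⁻¹) := by ring
    _ = 1 := by rw [h2, mul_inv_cancel₀ h, one_mul]

/-- the open orthant -/
abbrev Orth (N : ℕ) := {u : Fin N → ℝ // ∀ i, 0 < u i}

/-- parametrisation of the points with a given sign vector -/
noncomputable def par (s : Fin N → Bool) (u : Orth N) : zeroSet (P N) (Q N) :=
  ⟨pt s u.1, pt_mem s u.1 u.2⟩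

lemma continuous_par (s : Fin N → Bool) : Continuous (par s) := by
  refine Continuous.subtype_mk (continuous_pi fun k => ?_) _
  unfold pt
  by_cases h : (k : ℕ) = 0
  · simp only [h, dite_true]
    exact continuous_const
  · simp only [h, dite_false]
    have hc : ∀ j : Fin N, Continuous fun u : Orth N => u.1 j := fun j =>
      (continuous_apply j).comp continuous_subtype_val
    split_ifs
    · exact continuous_const.mul (hc _)
    · exact continuous_const.mul ((hc _).inv₀ fun u => (u.2 _).ne')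

lemma sgn_par (s : Fin N → Bool) (u : Orth N) : sgn (par s u) = s := by
  funext i
  show decide (0 < pt s u.1 (ix i)) = s i
  rw [pt_ix]
  have := u.2 i
  cases h : s i <;> simp [sg, this, this.le]

lemma par_abs (v : zeroSet (P N) (Q N)) :
    par (sgn v) ⟨fun i => |v.1 (ix i)|, fun i => abs_pos.2 (x_ne v i)⟩ = v := by
  apply Subtype.ext
  funext k
  have hz := (mem_zeroSet v.1).1 v.2
  show pt (sgn v) (fun i => |v.1 (ix i)|) k = v.1 k
  have hsg : ∀ i, sg (sgn v i) * |v.1 (ix i)| = v.1 (ix i) := by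
    intro i
    by_cases h : 0 < v.1 (ix i)
    · have : sgn v i = true := by simp [sgn, h]
      rw [this, abs_of_pos h]; simp [sg]
    · have : sgn v i = false := by simp only [sgn, decide_eq_false_iff_not]; exact h
      rw [this, abs_of_nonpos (not_lt.1 h)]; simp [sg]
  rcases Nat.eq_zero_or_pos (k : ℕ) with h0 | h0
  · have hk : k = 0 := Fin.ext h0
    subst hk
    rw [pt_zero, hz.1]
  · rcases Nat.mod_two_eq_zero_or_one (k : ℕ) with h1 | h1
    · have hk : k = iy ⟨((k : ℕ) - 1) / 2, by omega⟩ := by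
        apply Fin.ext
        show (k : ℕ) = 2 * (((k : ℕ) - 1) / 2) + 2
        omega
      obtain ⟨i, hi⟩ : ∃ i : Fin N, i = ⟨((k : ℕ) - 1) / 2, by omega⟩ := ⟨_, rfl⟩
      rw [← hi] at hk
      rw [hk, pt_iy]
      have h2 := hz.2 i
      have h3 := x_ne v i
      have h4 : v.1 (iy i) = (v.1 (ix i))⁻¹ :=
        eq_inv_of_mul_eq_one_left (by rw [mul_comm]; exact h2)
      rw [h4]
      nth_rewrite 2 [← hsg i]
      rw [mul_inv]
      congr 1
      exact eq_inv_of_mul_eq_one_left (sg_mul_self _)
    · have hk : k = ix ⟨((k : ℕ) - 1) / 2, by omega⟩ := by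
        apply Fin.ext
        show (k : ℕ) = 2 * (((k : ℕ) - 1) / 2) + 1
        omega
      obtain ⟨i, hi⟩ : ∃ i : Fin N, i = ⟨((k : ℕ) - 1) / 2, by omega⟩ := ⟨_, rfl⟩
      rw [← hi] at hk
      rw [hk, pt_ix]
      exact hsg i

lemma preconnected_orth : IsPreconnected {u : Fin N → ℝ | ∀ i, 0 < u i} := by
  have h : Convex ℝ {u : Fin N → ℝ | ∀ i, 0 < u i} := by
    have : {u : Fin N → ℝ | ∀ i, 0 < u i} = Set.pi Set.univ fun _ => Set.Ioi (0 : ℝ) := by
      ext u; simp
    rw [this]
    exact convex_pi fun i _ => convex_Ioi 0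
  exact h.isPreconnected

instance : PreconnectedSpace (Orth N) :=
  isPreconnected_iff_preconnectedSpace.1 preconnected_orth

lemma component_eq (v w : zeroSet (P N) (Q N)) (h : sgn v = sgn w) :
    connectedComponent v = connectedComponent w := by
  have hr : IsPreconnected (Set.range (par (sgn v))) :=
    isPreconnected_range (continuous_par (sgn v))
  have hv : v ∈ Set.range (par (sgn v)) := ⟨_, par_abs v⟩
  have hw : w ∈ Set.range (par (sgn v)) := by
    rw [h]
    exact ⟨_, par_abs w⟩
  exact (connectedComponent_eq (hr.subset_connectedComponent hv hw))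

/-- the components of the zero set correspond to the sign vectors -/
lemma card_components (N : ℕ) : b0 (zeroSet (P N) (Q N)) = 2 ^ N := by
  have hb : Function.Bijective (continuous_sgn (N := N)).connectedComponentsLift := by
    constructor
    · intro a b hab
      obtain ⟨v, rfl⟩ := ConnectedComponents.surjective_coe a
      obtain ⟨w, rfl⟩ := ConnectedComponents.surjective_coe b
      rw [Continuous.connectedComponentsLift_apply_coe,
        Continuous.connectedComponentsLift_apply_coe] at hab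
      exact ConnectedComponents.coe_eq_coe.2 (component_eq v w hab)
    · intro s
      refine ⟨((par s ⟨fun _ => 1, fun _ => one_pos⟩ : zeroSet (P N) (Q N)) :
        ConnectedComponents (zeroSet (P N) (Q N))), ?_⟩
      rw [Continuous.connectedComponentsLift_apply_coe]
      exact sgn_par s _
  unfold b0
  rw [Nat.card_congr (Equiv.ofBijective _ hb)]
  simp

end construction

/-- For every `N` two multi-affine polynomials of degree at most `4` in `2 N + 1` real variables
can have a common zero set with exactly `2 ^ N` connected components; in particular there is no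
bound in terms of the degree alone. -/
theorem result :
    (∀ N : ℕ, ∃ P Q : MvPolynomial (Fin (2 * N + 1)) ℝ, IsMultiAffine P ∧ IsMultiAffine Q ∧
      P.totalDegree ≤ 4 ∧ Q.totalDegree ≤ 4 ∧ b0 (zeroSet P Q) = 2 ^ N) ∧
    ¬ ∀ d : ℕ, 1 ≤ d → ∃ B : ℕ, ∀ n : ℕ, 1 ≤ n → ∀ P Q : MvPolynomial (Fin n) ℝ,
      IsMultiAffine P → IsMultiAffine Q → P.totalDegree ≤ d → Q.totalDegree ≤ d →
      b0 (zeroSet P Q) ≤ B := by
  have h1 : ∀ N : ℕ, ∃ P Q : MvPolynomial (Fin (2 * N + 1)) ℝ, IsMultiAffine P ∧
      IsMultiAffine Q ∧ P.totalDegree ≤ 4 ∧ Q.totalDegree ≤ 4 ∧ b0 (zeroSet P Q) = 2 ^ N :=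
    fun N => ⟨P N, Q N, multiAffine_P, multiAffine_Q, totalDegree_P, totalDegree_Q,
      card_components N⟩
  refine ⟨h1, fun h => ?_⟩
  obtain ⟨B, hB⟩ := h 4 (by norm_num)
  obtain ⟨P, Q, hP, hQ, hP4, hQ4, hc⟩ := h1 B
  have := hB (2 * B + 1) (by omega) P Q hP hQ hP4 hQ4
  rw [hc] at this
  exact absurd this (not_le.2 B.lt_two_pow_self)

end Pool.Agent.Results.MP_12b847_ag.TwoMultiAffine
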